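import Pool.Agent.KS6_80.LD.Pair
import Pool.Agent.KS6_80.LD.Join3

/-!
# MP_ff4a33_gt: the least dimension of a simplicial refinement, for every statistical model
-/

set_option autoImplicit false

namespace Pool.Agent.Results.MP_ff4a33_gt.ExactFormula

open Pool.Agent.X156.SR Pool.Agent.KS6_80.LD

/-- There are two models which are not simplicial, whose polytopes both have dimension `d` and
`d (d + 1)` extreme points, such that the least dimension of the refinements of the first is
`d (d + 1) - 1` and the second has a refinement of dimension `2 d + 1`. -/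
def TwoModels (d : ℕ) : Prop :=
  ∃ (C : Set (Fin d → ℝ)) (C' : Set (Fin (d + 1) → ℝ)),
    (IsPolytope C ∧ ¬ IsSimplex C ∧ Module.finrank ℝ (vectorSpan ℝ C) = d ∧
      (C.extremePoints ℝ).ncard = d * (d + 1) ∧
      refinementDims C = Set.Ici (d * (d + 1) - 1)) ∧
    (IsPolytope C' ∧ ¬ IsSimplex C' ∧ Module.finrank ℝ (vectorSpan ℝ C') = d ∧
      (C'.extremePoints ℝ).ncard = d * (d + 1) ∧ 2 * d + 1 ∈ refinementDims C')

/-- Let `C` be a polytope with `m` extreme points, let `M C` be the matrix of the values `η x` of
the extreme points `η` of `Ω C` at the extreme points `x` of `C`, and let `factorRank C` be the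
least `N` such that `M C` is a product of a row-stochastic matrix with `N` columns and a matrix with
`N` rows and entries in `[0,1]`.
(1) `M C` has finitely many columns and rows.
(2) The statistical model of `C` has a simplicial refinement by a simplex of dimension `n` exactly
when `M C` has such a factorization with `N = n + 1`; equivalently, exactly when the extreme points
`x` can be assigned probability vectors `P x` with `N` entries such that every signed measure `t`
on the extreme points of `C` satisfies `∑ t x * η x ≤ ∑ i, max (∑ t x * P x i) 0` for all forms `η`.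
(3) The set of the dimensions of the simplicial refinements is `{factorRank C - 1, ...}`, and
`1 ≤ factorRank C ≤ m`.
(4) The least dimension is at least `dim C + 1` if `C` is no simplex; it is `m - 1` or at least
`dim C + 3`; so it is `m - 1` for all polytopes with `m ≤ dim C + 4`.
(5) A finite set of points of `C`, any two of which are separated by a form with the values `0` and
`1`, has at most `factorRank C` elements; so the least dimension is `m - 1` if this applies to the
set of all extreme points.
(6) If `C` is the convex hull of a set `S` of vertices of a cube, then the least dimension is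
`m - 1`.
(7) `factorRank` is additive under joins; so is the number of the extreme points.
(8) The least dimension is not a function of `dim C` and `m`: for all `d ≥ 5` there are models which
are not simplicial with `dim C = d` and `m = d (d + 1)` whose least dimensions are `m - 1` and at
most `2 d + 1`. -/
theorem result :
    (∀ (E : Type) [NormedAddCommGroup E] [NormedSpace ℝ E] [FiniteDimensional ℝ E] (C : Set E),
      IsPolytope C →
      -- (1)
      ((C.extremePoints ℝ).Finite ∧ ((Omega C).extremePoints ℝ).Finite) ∧
      -- (2)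
      (∀ n : ℕ, (n ∈ refinementDims C ↔ Factors C (n + 1)) ∧
        (Factors C (n + 1) ↔ Dominated C (n + 1))) ∧
      -- (3)
      (refinementDims C = Set.Ici (factorRank C - 1) ∧
        1 ≤ factorRank C ∧ factorRank C ≤ (C.extremePoints ℝ).ncard) ∧
      -- (4)
      (¬ IsSimplex C → Module.finrank ℝ (vectorSpan ℝ C) + 1 ≤ factorRank C - 1) ∧
      (factorRank C = (C.extremePoints ℝ).ncard ∨
        Module.finrank ℝ (vectorSpan ℝ C) + 3 ≤ factorRank C - 1) ∧
      ((C.extremePoints ℝ).ncard ≤ Module.finrank ℝ (vectorSpan ℝ C) + 4 →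
        refinementDims C = Set.Ici ((C.extremePoints ℝ).ncard - 1)) ∧
      -- (5)
      (∀ A : Finset E, (A : Set E) ⊆ C → (∀ a ∈ A, ∀ b ∈ A, a ≠ b → Dist C a b) →
        A.card ≤ factorRank C) ∧
      ((∀ a ∈ C.extremePoints ℝ, ∀ b ∈ C.extremePoints ℝ, a ≠ b → Dist C a b) →
        refinementDims C = Set.Ici ((C.extremePoints ℝ).ncard - 1))) ∧
    -- (6)
    (∀ (d : ℕ) (S : Finset (Fin d → ℝ)), S.Nonempty → (∀ x ∈ S, ∀ i, x i = 0 ∨ x i = 1) →
      IsPolytope (convexHull ℝ (S : Set (Fin d → ℝ))) ∧
      (convexHull ℝ (S : Set (Fin d → ℝ))).extremePoints ℝ = S ∧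
      refinementDims (convexHull ℝ (S : Set (Fin d → ℝ))) = Set.Ici (S.card - 1)) ∧
    -- (7)
    (∀ (E₁ E₂ : Type) [NormedAddCommGroup E₁] [NormedSpace ℝ E₁] [NormedAddCommGroup E₂]
      [NormedSpace ℝ E₂] (C₁ : Set E₁) (C₂ : Set E₂), IsPolytope C₁ → IsPolytope C₂ →
      IsPolytope (joinSet C₁ C₂) ∧
      ((joinSet C₁ C₂).extremePoints ℝ).ncard =
        (C₁.extremePoints ℝ).ncard + (C₂.extremePoints ℝ).ncard ∧
      factorRank (joinSet C₁ C₂) = factorRank C₁ + factorRank C₂ ∧
      refinementDims (joinSet C₁ C₂) = Set.Ici (factorRank C₁ + factorRank C₂ - 1)) ∧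
    -- (8)
    (∀ d : ℕ, 5 ≤ d → TwoModels d) := by
  refine ⟨fun E _ _ _ C hC => ⟨⟨hC.2.2.2, finite_extreme_forms hC⟩, fun n => ⟨mem_dims hC,
    ⟨dominated_of_factors, factors_of_dominated hC⟩⟩, ⟨dims_eq hC, factorRank_pos hC,
    factorRank_le hC⟩, fun hs => ?_, ?_, fun h => ?_, fun A hA hd => card_le_factorRank hC hA hd,
    fun hd => ?_⟩, fun d S hS h01 => ⟨hull_polytope hS h01, hull_extreme h01, ?_⟩,
    fun E₁ E₂ _ _ _ _ C₁ C₂ h1 h2 => ⟨join_polytope h1 h2, join_ncard h1 h2,
      join_factorRank h1 h2, ?_⟩, exists_pair⟩
  · have h1 := dim_lt_factorRank hC hs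
    omega
  · rcases factorRank_dichotomy3 hC with h1 | h1
    · exact Or.inl h1
    · exact Or.inr (by omega)
  · rw [dims_eq hC, factorRank_eq_of_ncard_le3 hC h]
  · rw [dims_eq hC, factorRank_eq_of_dist hC hd]
  · rw [dims_eq (hull_polytope hS h01), hull_factorRank hS h01]
  · rw [dims_eq (join_polytope h1 h2), join_factorRank h1 h2]

end Pool.Agent.Results.MP_ff4a33_gt.ExactFormula
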